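import Mathlib

/-!
# Multiplicative dependence of three integers: relations with small exponents, and rigidity of near rational powers
-/

set_option autoImplicit false

open Filter

namespace Pool.Agent.N743.RP

/-- two positive integers are multiplicatively independent -/
def Ind (y z : ℕ) : Prop := ∀ i j : ℤ, (y : ℚ) ^ i * (z : ℚ) ^ j = 1 → i = 0 ∧ j = 0

/-- three positive integers are multiplicatively dependent -/
def Dep3 (x y z : ℕ) : Prop :=
  ∃ i j k : ℤ, (i ≠ 0 ∨ j ≠ 0 ∨ k ≠ 0) ∧ (x : ℚ) ^ i * (y : ℚ) ^ j * (z : ℚ) ^ k = 1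

theorem log_rel {x y z : ℕ} (hx : 1 ≤ x) (hy : 1 ≤ y) (hz : 1 ≤ z) {i j k : ℤ}
    (h : (x : ℚ) ^ i * (y : ℚ) ^ j * (z : ℚ) ^ k = 1) :
    (i : ℝ) * Real.log x + j * Real.log y + k * Real.log z = 0 := by
  have h1 : (x : ℝ) ^ i * (y : ℝ) ^ j * (z : ℝ) ^ k = 1 := by
    have h0 : (((x : ℚ) ^ i * (y : ℚ) ^ j * (z : ℚ) ^ k : ℚ) : ℝ) = ((1 : ℚ) : ℝ) := by rw [h]
    push_cast at h0
    exact h0
  have hx0 : (x : ℝ) ≠ 0 := by positivity
  have hy0 : (y : ℝ) ≠ 0 := by positivity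
  have hz0 : (z : ℝ) ≠ 0 := by positivity
  have h2 := congrArg Real.log h1
  rw [Real.log_mul (mul_ne_zero (zpow_ne_zero _ hx0) (zpow_ne_zero _ hy0)) (zpow_ne_zero _ hz0),
    Real.log_mul (zpow_ne_zero _ hx0) (zpow_ne_zero _ hy0), Real.log_zpow, Real.log_zpow, Real.log_zpow,
    Real.log_one] at h2
  exact h2

theorem val_rel {x y z : ℕ} (hx : 1 ≤ x) (hy : 1 ≤ y) (hz : 1 ≤ z) {i j k : ℤ}
    (h : (x : ℚ) ^ i * (y : ℚ) ^ j * (z : ℚ) ^ k = 1) (p : ℕ) (hp : p.Prime) :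
    i * (padicValNat p x : ℤ) + j * (padicValNat p y : ℤ) + k * (padicValNat p z : ℤ) = 0 := by
  have : Fact p.Prime := ⟨hp⟩
  have hx0 : (x : ℚ) ≠ 0 := by positivity
  have hy0 : (y : ℚ) ≠ 0 := by positivity
  have hz0 : (z : ℚ) ≠ 0 := by positivity
  have h2 := congrArg (padicValRat p) h
  rw [padicValRat.mul (mul_ne_zero (zpow_ne_zero _ hx0) (zpow_ne_zero _ hy0)) (zpow_ne_zero _ hz0),
    padicValRat.mul (zpow_ne_zero _ hx0) (zpow_ne_zero _ hy0), padicValRat.zpow, padicValRat.zpow,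
    padicValRat.zpow, padicValRat.one] at h2
  simpa [padicValRat.of_nat] using h2

theorem minor {y z : ℕ} (hy : 2 ≤ y) (hz : 2 ≤ z) (hI : Ind y z) : ∃ p q : ℕ, p.Prime ∧ q.Prime ∧
    (padicValNat p y : ℤ) * padicValNat q z - padicValNat q y * padicValNat p z ≠ 0 := by
  by_contra hcon
  push Not at hcon
  obtain ⟨p, hp, hpy⟩ := Nat.exists_prime_and_dvd (show y ≠ 1 by omega)
  have : Fact p.Prime := ⟨hp⟩
  have hv : 1 ≤ padicValNat p y := one_le_padicValNat_of_dvd (by omega) hpy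
  have h1 : z ^ padicValNat p y = y ^ padicValNat p z := by
    refine Nat.eq_of_factorization_eq (pow_ne_zero _ (by omega)) (pow_ne_zero _ (by omega)) fun q => ?_
    rw [Nat.factorization_pow, Nat.factorization_pow]
    by_cases hq : q.Prime
    · have h2 := hcon p q hp hq
      rw [Finsupp.smul_apply, Finsupp.smul_apply, Nat.factorization_def _ hq, Nat.factorization_def _ hq, smul_eq_mul,
        smul_eq_mul]
      have h3 : (padicValNat p y : ℤ) * padicValNat q z = padicValNat p z * padicValNat q y := by linarith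
      exact_mod_cast h3
    · rw [Finsupp.smul_apply, Finsupp.smul_apply, Nat.factorization_eq_zero_of_not_prime _ hq,
        Nat.factorization_eq_zero_of_not_prime _ hq, smul_zero, smul_zero]
  have h2 := (hI (padicValNat p z) (-(padicValNat p y : ℤ)) (by
    rw [zpow_neg, zpow_natCast, zpow_natCast]
    have h3 : (z : ℚ) ^ padicValNat p y = (y : ℚ) ^ padicValNat p z := by exact_mod_cast h1
    rw [h3]
    exact mul_inv_cancel₀ (pow_ne_zero _ (by positivity)))).2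
  omega

theorem val_le {p x N : ℕ} (hp : p.Prime) (hxN : x ≤ N) : padicValNat p x ≤ Nat.log 2 N := by
  have : Fact p.Prime := ⟨hp⟩
  exact (padicValNat_le_nat_log x).trans ((Nat.log_anti_left (by norm_num) hp.two_le).trans (Nat.log_mono_right hxN))

theorem minor_bound {a b c d l : ℕ} (ha : a ≤ l) (hb : b ≤ l) (hc : c ≤ l) (hd : d ≤ l) :
    |(a : ℤ) * b - c * d| ≤ ((l ^ 2 : ℕ) : ℤ) := by
  have h1 : a * b ≤ l ^ 2 := by nlinarith
  have h2 : c * d ≤ l ^ 2 := by nlinarith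
  rw [abs_le]
  constructor
  · have : ((c * d : ℕ) : ℤ) ≤ ((l ^ 2 : ℕ) : ℤ) := by exact_mod_cast h2
    push_cast at this ⊢
    nlinarith [mul_nonneg (Int.natCast_nonneg a) (Int.natCast_nonneg b)]
  · have : ((a * b : ℕ) : ℤ) ≤ ((l ^ 2 : ℕ) : ℤ) := by exact_mod_cast h1
    push_cast at this ⊢
    nlinarith [mul_nonneg (Int.natCast_nonneg c) (Int.natCast_nonneg d)]

theorem cramer {x y z N : ℕ} (hx : 1 ≤ x) (hy : 2 ≤ y) (hz : 2 ≤ z) (hxN : x ≤ N) (hyN : y ≤ N) (hzN : z ≤ N)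
    (hI : Ind y z) (hD : Dep3 x y z) : ∃ D D₁ D₂ : ℤ, D ≠ 0 ∧ |D| ≤ ((Nat.log 2 N ^ 2 : ℕ) : ℤ) ∧
      |D₁| ≤ ((Nat.log 2 N ^ 2 : ℕ) : ℤ) ∧ |D₂| ≤ ((Nat.log 2 N ^ 2 : ℕ) : ℤ) ∧
      (D : ℝ) * Real.log x = D₁ * Real.log y + D₂ * Real.log z := by
  obtain ⟨p, q, hp, hq, hD0⟩ := minor hy hz hI
  obtain ⟨i, j, k, hijk, hrel⟩ := hD
  have hlog := log_rel hx (by omega) (by omega) hrel
  have hvp := val_rel hx (by omega) (by omega) hrel p hp
  have hvq := val_rel hx (by omega) (by omega) hrel q hq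
  have hi : i ≠ 0 := by
    intro h0
    rw [h0, zpow_zero, one_mul] at hrel
    obtain ⟨h1, h2⟩ := hI j k hrel
    rcases hijk with h | h | h
    · exact h h0
    · exact h h1
    · exact h h2
  refine ⟨_, (padicValNat p x : ℤ) * padicValNat q z - padicValNat q x * padicValNat p z,
    (padicValNat p y : ℤ) * padicValNat q x - padicValNat q y * padicValNat p x, hD0,
    minor_bound (val_le hp hyN) (val_le hq hzN) (val_le hq hyN) (val_le hp hzN),
    minor_bound (val_le hp hxN) (val_le hq hzN) (val_le hq hxN) (val_le hp hzN),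
    minor_bound (val_le hp hyN) (val_le hq hxN) (val_le hq hyN) (val_le hp hxN), ?_⟩
  generalize padicValNat p x = a1 at *
  generalize padicValNat q x = a2 at *
  generalize padicValNat p y = b1 at *
  generalize padicValNat q y = b2 at *
  generalize padicValNat p z = c1 at *
  generalize padicValNat q z = c2 at *
  have hvp' : (i : ℝ) * a1 + j * b1 + k * c1 = 0 := by exact_mod_cast hvp
  have hvq' : (i : ℝ) * a2 + j * b2 + k * c2 = 0 := by exact_mod_cast hvq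
  have hi' : (i : ℝ) ≠ 0 := by exact_mod_cast hi
  apply mul_left_cancel₀ hi'
  push_cast
  linear_combination ((b1 : ℝ) * c2 - b2 * c1) * hlog - (Real.log y * c2 - Real.log z * b2) * hvp' +
    (Real.log y * c1 - Real.log z * b1) * hvq'

theorem log_gap {u v B : ℕ} (hu : 1 ≤ u) (hv : 1 ≤ v) (huB : u ≤ B) (hvB : v ≤ B) :
    Real.log u - Real.log v = 0 ∨ 1 / (B : ℝ) ≤ |Real.log u - Real.log v| := by
  have key : ∀ u v : ℕ, 1 ≤ v → u ≤ B → v < u → 1 / (B : ℝ) ≤ |Real.log u - Real.log v| := by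
    intro u v hv huB hvu
    have hu0 : (0 : ℝ) < u := by exact_mod_cast (by omega : 0 < u)
    have hv0 : (0 : ℝ) < v := by exact_mod_cast (by omega : 0 < v)
    have h1 := Real.log_le_sub_one_of_pos (show (0 : ℝ) < (v : ℝ) / u by positivity)
    rw [Real.log_div hv0.ne' hu0.ne'] at h1
    have h2 : (v : ℝ) + 1 ≤ u := by exact_mod_cast hvu
    have h3 : (v : ℝ) / u ≤ 1 - 1 / u := by
      rw [div_le_iff₀ hu0, sub_mul, one_div, inv_mul_cancel₀ hu0.ne']
      linarith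
    have h4 : 1 / (B : ℝ) ≤ 1 / u := one_div_le_one_div_of_le hu0 (by exact_mod_cast huB)
    have h5 := le_abs_self (Real.log u - Real.log v)
    linarith
  rcases lt_trichotomy u v with h | h | h
  · right
    rw [abs_sub_comm]
    exact key v u hu hvB h
  · left
    rw [h, sub_self]
  · right
    exact key u v hv huB h

theorem pow_pair {a b A T : ℕ} (ha : 1 ≤ a) (hb : 1 ≤ b) (haA : a ≤ A) (hbA : b ≤ A) (D : ℤ)
    (hD : |D| ≤ (T : ℤ)) : ∃ u v : ℕ, 1 ≤ u ∧ 1 ≤ v ∧ u ≤ A ^ T ∧ v ≤ A ^ T ∧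
      (D : ℝ) * (Real.log a - Real.log b) = Real.log u - Real.log v := by
  have hA : 1 ≤ A := ha.trans haA
  have hn : D.natAbs ≤ T := by
    rw [Int.abs_eq_natAbs] at hD
    exact_mod_cast hD
  have hpow : ∀ x, x ≤ A → x ^ D.natAbs ≤ A ^ T := fun x hx =>
    (Nat.pow_le_pow_left hx _).trans (Nat.pow_le_pow_right hA hn)
  rcases le_total 0 D with h | h
  · have h1 : (D : ℝ) = (D.natAbs : ℝ) := by
      have h0 : D = (D.natAbs : ℤ) := (Int.natAbs_of_nonneg h).symm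
      have h2 : ((D : ℤ) : ℝ) = (((D.natAbs : ℕ) : ℤ) : ℝ) := by rw [← h0]
      rwa [Int.cast_natCast] at h2
    refine ⟨a ^ D.natAbs, b ^ D.natAbs, Nat.one_le_pow _ _ ha, Nat.one_le_pow _ _ hb, hpow a haA, hpow b hbA, ?_⟩
    rw [Nat.cast_pow, Nat.cast_pow, Real.log_pow, Real.log_pow, h1]
    ring
  · have h1 : (D : ℝ) = -(D.natAbs : ℝ) := by
      have h0 : D = -(D.natAbs : ℤ) := by
        rw [Int.ofNat_natAbs_of_nonpos h]
        ring
      have h2 : ((D : ℤ) : ℝ) = ((-((D.natAbs : ℕ) : ℤ) : ℤ) : ℝ) := by rw [← h0]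
      rwa [Int.cast_neg, Int.cast_natCast] at h2
    refine ⟨b ^ D.natAbs, a ^ D.natAbs, Nat.one_le_pow _ _ hb, Nat.one_le_pow _ _ ha, hpow b hbA, hpow a haA, ?_⟩
    rw [Nat.cast_pow, Nat.cast_pow, Real.log_pow, Real.log_pow, h1]
    ring

theorem gap {a b a₁ b₁ a₂ b₂ A T : ℕ} (ha : 1 ≤ a) (hb : 1 ≤ b) (haA : a ≤ A) (hbA : b ≤ A)
    (ha₁ : 1 ≤ a₁) (hb₁ : 1 ≤ b₁) (ha₁A : a₁ ≤ A) (hb₁A : b₁ ≤ A)
    (ha₂ : 1 ≤ a₂) (hb₂ : 1 ≤ b₂) (ha₂A : a₂ ≤ A) (hb₂A : b₂ ≤ A) (D D₁ D₂ : ℤ)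
    (hD : |D| ≤ (T : ℤ)) (hD₁ : |D₁| ≤ (T : ℤ)) (hD₂ : |D₂| ≤ (T : ℤ)) :
    (D : ℝ) * (Real.log a - Real.log b) - D₁ * (Real.log a₁ - Real.log b₁) -
      D₂ * (Real.log a₂ - Real.log b₂) = 0 ∨
    1 / (A : ℝ) ^ (3 * T) ≤ |(D : ℝ) * (Real.log a - Real.log b) - D₁ * (Real.log a₁ - Real.log b₁) -
      D₂ * (Real.log a₂ - Real.log b₂)| := by
  obtain ⟨u, v, hu, hv, huA, hvA, h⟩ := pow_pair ha hb haA hbA D hD
  obtain ⟨u₁, v₁, hu₁, hv₁, huA₁, hvA₁, h₁⟩ := pow_pair ha₁ hb₁ ha₁A hb₁A D₁ hD₁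
  obtain ⟨u₂, v₂, hu₂, hv₂, huA₂, hvA₂, h₂⟩ := pow_pair ha₂ hb₂ ha₂A hb₂A D₂ hD₂
  have hpos : ∀ n : ℕ, 1 ≤ n → (n : ℝ) ≠ 0 := fun n hn => by
    have : (0 : ℝ) < n := by exact_mod_cast hn
    exact this.ne'
  have e : (D : ℝ) * (Real.log a - Real.log b) - D₁ * (Real.log a₁ - Real.log b₁) -
      D₂ * (Real.log a₂ - Real.log b₂) = Real.log ((u * v₁ * v₂ : ℕ) : ℝ) - Real.log ((v * u₁ * u₂ : ℕ) : ℝ) := by
    push_cast
    rw [h, h₁, h₂, Real.log_mul (mul_ne_zero (hpos u hu) (hpos v₁ hv₁)) (hpos v₂ hv₂),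
      Real.log_mul (hpos u hu) (hpos v₁ hv₁), Real.log_mul (mul_ne_zero (hpos v hv) (hpos u₁ hu₁)) (hpos u₂ hu₂),
      Real.log_mul (hpos v hv) (hpos u₁ hu₁)]
    ring
  rw [e]
  have h3 : A ^ (3 * T) = A ^ T * A ^ T * A ^ T := by ring
  have hB : ((A ^ (3 * T) : ℕ) : ℝ) = (A : ℝ) ^ (3 * T) := by push_cast; rfl
  rw [← hB]
  refine log_gap (Nat.one_le_iff_ne_zero.2 (by positivity)) (Nat.one_le_iff_ne_zero.2 (by positivity)) ?_ ?_
  · rw [h3]
    exact Nat.mul_le_mul (Nat.mul_le_mul huA hvA₁) hvA₂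
  · rw [h3]
    exact Nat.mul_le_mul (Nat.mul_le_mul hvA huA₁) huA₂

theorem log_close {x y : ℝ} (hx : 1 ≤ x) (h : |x - y| ≤ 1 / 2) :
    0 < y ∧ |Real.log x - Real.log y| ≤ 2 * |x - y| ∧ |x - y| ≤ 2 * x * |Real.log x - Real.log y| := by
  obtain ⟨h1, h2⟩ := abs_le.1 h
  have hy : 1 / 2 ≤ y := by linarith
  have hy0 : 0 < y := by linarith
  have hx0 : 0 < x := by linarith
  have a1 := Real.log_le_sub_one_of_pos (show 0 < x / y by positivity)
  have a2 := Real.log_le_sub_one_of_pos (show 0 < y / x by positivity)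
  rw [Real.log_div hx0.ne' hy0.ne'] at a1
  rw [Real.log_div hy0.ne' hx0.ne'] at a2
  have b1 : x / y - 1 = (x - y) / y := by field_simp
  have b2 : y / x - 1 = (y - x) / x := by field_simp
  rw [b1] at a1
  rw [b2] at a2
  refine ⟨hy0, ?_, ?_⟩
  · rw [abs_le]
    constructor
    · have c1 : (y - x) / x ≤ 2 * |x - y| := by
        rw [div_le_iff₀ hx0]
        have := neg_abs_le (x - y)
        nlinarith [abs_nonneg (x - y)]
      linarith
    · have c1 : (x - y) / y ≤ 2 * |x - y| := by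
        rw [div_le_iff₀ hy0]
        have := le_abs_self (x - y)
        nlinarith [abs_nonneg (x - y)]
      linarith
  · rw [le_div_iff₀ hy0] at a1
    rw [le_div_iff₀ hx0] at a2
    have hd := abs_nonneg (Real.log x - Real.log y)
    have d1 := le_abs_self (Real.log x - Real.log y)
    have d2 := neg_abs_le (Real.log x - Real.log y)
    rw [abs_le]
    constructor
    · nlinarith
    · nlinarith

end Pool.Agent.N743.RP
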