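import Pool.Agent.N743.RP.Rigid

/-!
# Scale dichotomy for integers with near rational powers
-/

set_option autoImplicit false

open Filter

namespace Pool.Agent.N743.RP

/-- the integers `n`, `2 ≤ n ≤ H`, for which `n ^ θ` is within `exp (- C (log H) ^ 15)` of a rational number `p / q` with
`1 ≤ q ≤ H` -/
def Near (θ C : ℝ) (H : ℕ) : Set ℕ :=
  {n | 2 ≤ n ∧ n ≤ H ∧ ∃ (p : ℤ) (q : ℕ), 1 ≤ q ∧ q ≤ H ∧
    |(n : ℝ) ^ θ - (p : ℝ) / (q : ℝ)| ≤ Real.exp (-(C * Real.log H ^ 15))}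

/-- two multiplicatively independent integers have a rational power -/
def Two (θ : ℝ) : Prop := ∃ m n : ℕ, 2 ≤ m ∧ 2 ≤ n ∧ Ind m n ∧ (∃ a : ℚ, (m : ℝ) ^ θ = a) ∧ ∃ b : ℚ, (n : ℝ) ^ θ = b

theorem near_mono {θ C C' : ℝ} {H : ℕ} (h : C' ≤ C) : Near θ C H ⊆ Near θ C' H := by
  rintro n ⟨h1, h2, p, q, h3, h4, h5⟩
  refine ⟨h1, h2, p, q, h3, h4, h5.trans (Real.exp_le_exp.2 ?_)⟩
  have h6 : 0 ≤ Real.log H := Real.log_natCast_nonneg H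
  have : C' * Real.log H ^ 15 ≤ C * Real.log H ^ 15 := mul_le_mul_of_nonneg_right h (by positivity)
  linarith

/-- the last scale -/
theorem last_scale {C δ : ℝ} (hC : 0 < C) (hδ : 0 < δ) {H : ℕ} (hH : 1 ≤ H)
    (h : δ ≤ Real.exp (-(C * Real.log H ^ 15))) : ∃ W : ℕ, H ≤ W ∧ δ ≤ Real.exp (-(C * Real.log W ^ 15)) ∧
      Real.exp (-(C * Real.log ((W + 1 : ℕ) : ℝ) ^ 15)) < δ := by
  classical
  have hex : ∃ w : ℕ, H ≤ w ∧ Real.exp (-(C * Real.log w ^ 15)) < δ := by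
    have h1 : Tendsto (fun w : ℕ => Real.log (w : ℝ)) atTop atTop :=
      Real.tendsto_log_atTop.comp tendsto_natCast_atTop_atTop
    have h2 : Tendsto (fun w : ℕ => Real.exp (-(C * Real.log (w : ℝ) ^ 15))) atTop (nhds 0) := by
      refine Real.tendsto_exp_atBot.comp ?_
      refine tendsto_neg_atTop_atBot.comp ?_
      exact Tendsto.const_mul_atTop hC ((tendsto_pow_atTop (by norm_num)).comp h1)
    obtain ⟨w, hw1, hw2⟩ := ((h2.eventually (gt_mem_nhds hδ)).and (eventually_ge_atTop H)).exists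
    exact ⟨w, hw2, hw1⟩
  obtain ⟨w, hw⟩ : ∃ w, w = Nat.find hex := ⟨_, rfl⟩
  obtain ⟨h1, h2⟩ := Nat.find_spec hex
  rw [← hw] at h1 h2
  have h3 : w ≠ H := by
    intro he
    rw [he] at h2
    linarith
  obtain ⟨W, rfl⟩ : ∃ W, w = W + 1 := ⟨w - 1, by omega⟩
  refine ⟨W, by omega, ?_, h2⟩
  by_contra hcon
  have := Nat.find_min' hex ⟨show H ≤ W by omega, not_le.1 hcon⟩
  omega

theorem log_succ_le {W Y : ℕ} (hW : 3 ≤ W) (hY : W ^ 2 < Y) : 4 * Real.log ((W + 1 : ℕ) : ℝ) ≤ 3 * Real.log Y := by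
  have h1 : (W + 1) ^ 4 ≤ Y ^ 3 := by
    have h2 : (W + 1) ^ 2 ≤ W ^ 3 := by nlinarith [Nat.pow_le_pow_left hW 2]
    calc (W + 1) ^ 4 = ((W + 1) ^ 2) ^ 2 := by ring
      _ ≤ (W ^ 3) ^ 2 := Nat.pow_le_pow_left h2 2
      _ = (W ^ 2) ^ 3 := by ring
      _ ≤ Y ^ 3 := Nat.pow_le_pow_left hY.le 3
  have h3 : (((W + 1 : ℕ) : ℝ)) ^ 4 ≤ (Y : ℝ) ^ 3 := by exact_mod_cast h1
  have h4 := Real.log_le_log (by positivity) h3
  rw [Real.log_pow, Real.log_pow] at h4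
  exact_mod_cast h4

theorem exact_near {θ C : ℝ} {m H : ℕ} (hm : 2 ≤ m) (hmH : m ≤ H) (a : ℚ) (ha : (m : ℝ) ^ θ = a) (haH : a.den ≤ H) :
    m ∈ Near θ C H := by
  refine ⟨hm, hmH, a.num, a.den, a.den_pos, haH, ?_⟩
  have h1 : (a : ℝ) = (a.num : ℝ) / (a.den : ℝ) := Rat.cast_def a
  rw [ha, ← h1, sub_self, abs_zero]
  exact (Real.exp_pos _).le

theorem rat_of_zero {θ : ℝ} {m : ℕ} {p : ℤ} {q : ℕ} (h : |(m : ℝ) ^ θ - (p : ℝ) / (q : ℝ)| ≤ 0) :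
    ∃ a : ℚ, (m : ℝ) ^ θ = a := by
  refine ⟨(p : ℚ) / q, ?_⟩
  have h1 := abs_nonpos_iff.1 h
  push_cast
  linarith

theorem main {θ C₀ : ℝ} (hθ : 0 < θ) (hC₀ : 0 < C₀)
    (hbase : ∀ H : ℕ, 2 ≤ H → ∀ x ∈ Near θ C₀ H, ∀ y ∈ Near θ C₀ H, ∀ z ∈ Near θ C₀ H, Dep3 x y z) (M : ℕ)
    (hM : 2 ≤ M) : ∃ C : ℝ, 0 < C ∧ ∃ H₀ : ℕ,
      (∀ H : ℕ, 2 ≤ H → ∀ x ∈ Near θ C H, ∀ y ∈ Near θ C H, ∀ z ∈ Near θ C H, Dep3 x y z) ∧
      (Two θ → ∀ᶠ H : ℕ in atTop, ∀ n ∈ Near θ C H, ∃ a : ℚ, (n : ℝ) ^ θ = a) ∧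
      (¬ Two θ → ∀ H : ℕ, H₀ ≤ H → ∀ m ∈ Near θ C H, ∀ n ∈ Near θ C H, Ind m n → ∃ Z : ℕ, H ≤ Z ∧
        (∀ Y : ℕ, H ≤ Y → Y ≤ Z ^ M → ∀ x ∈ Near θ C Y, Dep3 x m n) ∧
        ∀ Y : ℕ, Z < Y → Y ≤ Z ^ M → ∀ x ∈ Near θ C Y, ∀ y ∈ Near θ C Y, ¬ Ind x y) ∧
      (¬ Two θ → ∀ N : ℕ, ∃ Z : ℕ, N ≤ Z ∧
        ∀ Y : ℕ, Z < Y → Y ≤ Z ^ M → ∀ x ∈ Near θ C Y, ∀ y ∈ Near θ C Y, ¬ Ind x y) ∧
      (Two θ ↔ ∀ᶠ H : ℕ in atTop, ∃ x ∈ Near θ C H, ∃ y ∈ Near θ C H, Ind x y) := by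
  obtain ⟨B, hB⟩ := rigid hθ hC₀
  obtain ⟨C, hCdef⟩ : ∃ C : ℝ, C = C₀ * (2 * M) ^ 15 := ⟨_, rfl⟩
  have hM2 : (2 : ℝ) ≤ M := by exact_mod_cast hM
  have hCC : C₀ ≤ C := by
    rw [hCdef]
    have : (1 : ℝ) ≤ (2 * M) ^ 15 := one_le_pow₀ (by linarith)
    nlinarith
  have hC : 0 < C := by linarith
  have hlogt : Tendsto (fun w : ℕ => Real.log (w : ℝ)) atTop atTop :=
    Real.tendsto_log_atTop.comp tendsto_natCast_atTop_atTop
  obtain ⟨H₀, hH₀⟩ := eventually_atTop.1 (((hlogt.eventually_ge_atTop B).and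
    (hlogt.eventually_ge_atTop (max 1 ((θ + 2) / (C / 2))))).and (eventually_ge_atTop (4 : ℕ)))
  have hL : ∀ Y : ℕ, H₀ ≤ Y → B ≤ Real.log Y ∧ 1 ≤ Real.log Y ∧
      (θ + 1) * Real.log Y < C / 2 * Real.log Y ^ 15 ∧ 4 ≤ Y := by
    intro Y hY
    obtain ⟨⟨h1, h2⟩, h3⟩ := hH₀ Y hY
    have h4 : 1 ≤ Real.log Y := (le_max_left _ _).trans h2
    have h5 : (θ + 2) / (C / 2) ≤ Real.log Y := (le_max_right _ _).trans h2
    rw [div_le_iff₀ (by linarith)] at h5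
    refine ⟨h1, h4, ?_, h3⟩
    have h6 : Real.log Y ^ 2 ≤ Real.log Y ^ 15 := pow_le_pow_right₀ h4 (by norm_num)
    have h7 : C / 2 * Real.log Y ^ 2 ≤ C / 2 * Real.log Y ^ 15 := mul_le_mul_of_nonneg_left h6 (by linarith)
    have h8 : (θ + 2) * Real.log Y ≤ C / 2 * Real.log Y ^ 2 := by
      calc (θ + 2) * Real.log Y ≤ (Real.log Y * (C / 2)) * Real.log Y :=
            mul_le_mul_of_nonneg_right h5 (by linarith)
        _ = _ := by ring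
    linarith
  -- (1)
  have p1 : ∀ H : ℕ, 2 ≤ H → ∀ x ∈ Near θ C H, ∀ y ∈ Near θ C H, ∀ z ∈ Near θ C H, Dep3 x y z :=
    fun H hH x hx y hy z hz => hbase H hH x (near_mono hCC hx) y (near_mono hCC hy) z (near_mono hCC hz)
  -- (2)
  have p2 : Two θ → ∀ᶠ H : ℕ in atTop, ∀ n ∈ Near θ C H, ∃ a : ℚ, (n : ℝ) ^ θ = a := by
    rintro ⟨m, n, hm, hn, hI, ⟨a, ha⟩, b, hb⟩
    filter_upwards [eventually_ge_atTop H₀, eventually_ge_atTop m, eventually_ge_atTop n,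
      eventually_ge_atTop a.den, eventually_ge_atTop b.den] with H h1 h2 h3 h4 h5 x hx
    obtain ⟨g1, -, -, g4⟩ := hL H h1
    have hmN : m ∈ Near θ C₀ H := exact_near hm h2 a ha h4
    have hnN : n ∈ Near θ C₀ H := exact_near hn h3 b hb h5
    have hxN := near_mono hCC hx
    have hdep := hbase H (by omega) x hxN m hmN n hnN
    obtain ⟨k1, k2, p, q, k3, k4, k5⟩ := hxN
    have ea : |(m : ℝ) ^ θ - (a.num : ℝ) / (a.den : ℝ)| = 0 := by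
      rw [ha, ← Rat.cast_def a, sub_self, abs_zero]
    have eb : |(n : ℝ) ^ θ - (b.num : ℝ) / (b.den : ℝ)| = 0 := by
      rw [hb, ← Rat.cast_def b, sub_self, abs_zero]
    have h6 := hB H g1 x m n k1 hm hn k2 h2 h3 hI hdep p a.num b.num q a.den b.den k3 k4 a.den_pos h4 b.den_pos h5 k5
      (by rw [ea]; exact (Real.exp_pos _).le) (by rw [eb]; exact (Real.exp_pos _).le)
    rw [ea, eb, max_self, mul_zero] at h6
    exact rat_of_zero h6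
  -- (3)
  have p3 : ¬ Two θ → ∀ H : ℕ, H₀ ≤ H → ∀ m ∈ Near θ C H, ∀ n ∈ Near θ C H, Ind m n → ∃ Z : ℕ, H ≤ Z ∧
        (∀ Y : ℕ, H ≤ Y → Y ≤ Z ^ M → ∀ x ∈ Near θ C Y, Dep3 x m n) ∧
        ∀ Y : ℕ, Z < Y → Y ≤ Z ^ M → ∀ x ∈ Near θ C Y, ∀ y ∈ Near θ C Y, ¬ Ind x y := by
    intro hno H hH m hm n hn hI
    obtain ⟨m1, m2, p₁, q₁, m3, m4, m5⟩ := hm
    obtain ⟨n1, n2, p₂, q₂, n3, n4, n5⟩ := hn
    obtain ⟨-, -, -, hH4⟩ := hL H hH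
    obtain ⟨δ, hδ⟩ : ∃ δ, δ = max |(m : ℝ) ^ θ - p₁ / q₁| |(n : ℝ) ^ θ - p₂ / q₂| := ⟨_, rfl⟩
    have hδ1 : |(m : ℝ) ^ θ - p₁ / q₁| ≤ δ := hδ ▸ le_max_left _ _
    have hδ2 : |(n : ℝ) ^ θ - p₂ / q₂| ≤ δ := hδ ▸ le_max_right _ _
    have hδ0 : 0 < δ := by
      by_contra hcon
      exact hno ⟨m, n, m1, n1, hI, rat_of_zero (hδ1.trans (not_lt.1 hcon)), rat_of_zero (hδ2.trans (not_lt.1 hcon))⟩
    have hδH : δ ≤ Real.exp (-(C * Real.log H ^ 15)) := by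
      rw [hδ]
      exact max_le m5 n5
    obtain ⟨W, hHW, hW1, hW2⟩ := last_scale hC hδ0 (by omega) hδH
    have hW4 : 4 ≤ W := by omega
    have hWZ : W ≤ W ^ 2 := Nat.le_self_pow (by norm_num) W
    have hlow : ∀ Y : ℕ, H ≤ Y → Y ≤ (W ^ 2) ^ M → m ∈ Near θ C₀ Y ∧ n ∈ Near θ C₀ Y ∧
        δ ≤ Real.exp (-(C₀ * Real.log Y ^ 15)) := by
      intro Y hY1 hY2
      have hY0 : (0 : ℝ) < Y := by exact_mod_cast (by omega : 0 < Y)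
      have h1 : (Y : ℝ) ≤ (W : ℝ) ^ (2 * M) := by
        rw [← pow_mul] at hY2
        exact_mod_cast hY2
      have h2 := Real.log_le_log hY0 h1
      rw [Real.log_pow] at h2
      have h3 : 0 ≤ Real.log Y := Real.log_natCast_nonneg Y
      have h4 : δ ≤ Real.exp (-(C₀ * Real.log Y ^ 15)) := by
        refine hW1.trans (Real.exp_le_exp.2 (neg_le_neg ?_))
        rw [hCdef]
        calc C₀ * Real.log Y ^ 15 ≤ C₀ * (((2 * M : ℕ) : ℝ) * Real.log W) ^ 15 :=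
              mul_le_mul_of_nonneg_left (pow_le_pow_left₀ h3 h2 15) hC₀.le
          _ = C₀ * (2 * M) ^ 15 * Real.log W ^ 15 := by
              push_cast
              ring
      exact ⟨⟨m1, m2.trans hY1, p₁, q₁, m3, m4.trans hY1, hδ1.trans h4⟩,
        ⟨n1, n2.trans hY1, p₂, q₂, n3, n4.trans hY1, hδ2.trans h4⟩, h4⟩
    refine ⟨W ^ 2, hHW.trans hWZ, fun Y hY1 hY2 x hx => ?_, fun Y hY1 hY2 x hx y hy hxy => ?_⟩
    · obtain ⟨g1, g2, -⟩ := hlow Y hY1 hY2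
      exact hbase Y (by omega) x (near_mono hCC hx) m g1 n g2
    · have hHY : H ≤ Y := by omega
      obtain ⟨g1, g2, g3⟩ := hlow Y hHY hY2
      obtain ⟨l1, l2, l3, l4⟩ := hL Y (hH.trans hHY)
      have dm := hbase Y (by omega) m g1 x (near_mono hCC hx) y (near_mono hCC hy)
      have dn := hbase Y (by omega) n g2 x (near_mono hCC hx) y (near_mono hCC hy)
      obtain ⟨x1, x2, px, qx, x3, x4, x5⟩ := hx
      obtain ⟨y1, y2, py, qy, y3, y4, y5⟩ := hy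
      have hmono : Real.exp (-(C * Real.log Y ^ 15)) ≤ Real.exp (-(C₀ * Real.log Y ^ 15)) := by
        refine Real.exp_le_exp.2 (neg_le_neg ?_)
        exact mul_le_mul_of_nonneg_right hCC (by positivity)
      have hmax : max |(x : ℝ) ^ θ - px / qx| |(y : ℝ) ^ θ - py / qy| ≤ Real.exp (-(C * Real.log Y ^ 15)) :=
        max_le x5 y5
      have r1 := hB Y l1 m x y m1 x1 y1 (m2.trans hHY) x2 y2 hxy dm p₁ px py q₁ qx qy m3 (m4.trans hHY) x3 x4 y3 y4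
        (hδ1.trans g3) (x5.trans hmono) (y5.trans hmono)
      have r2 := hB Y l1 n x y n1 x1 y1 (n2.trans hHY) x2 y2 hxy dn p₂ px py q₂ qx qy n3 (n4.trans hHY) x3 x4 y3 y4
        (hδ2.trans g3) (x5.trans hmono) (y5.trans hmono)
      have r3 : δ ≤ Real.exp ((θ + 1) * Real.log Y) * Real.exp (-(C * Real.log Y ^ 15)) := by
        rw [hδ]
        refine max_le (r1.trans ?_) (r2.trans ?_)
        · exact mul_le_mul_of_nonneg_left hmax (Real.exp_pos _).le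
        · exact mul_le_mul_of_nonneg_left hmax (Real.exp_pos _).le
      rw [← Real.exp_add] at r3
      have r4 := Real.exp_lt_exp.1 (hW2.trans_le r3)
      have h5 := log_succ_le (by omega : 3 ≤ W) hY1
      have h6 : Real.log ((W + 1 : ℕ) : ℝ) ^ 15 ≤ (3 / 4 * Real.log Y) ^ 15 :=
        pow_le_pow_left₀ (Real.log_natCast_nonneg _) (by linarith) 15
      have h7 : (3 / 4 * Real.log Y) ^ 15 ≤ 1 / 2 * Real.log Y ^ 15 := by
        rw [mul_pow]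
        apply mul_le_mul_of_nonneg_right _ (by positivity)
        norm_num
      have h8 : C * Real.log ((W + 1 : ℕ) : ℝ) ^ 15 ≤ C * (1 / 2 * Real.log Y ^ 15) :=
        mul_le_mul_of_nonneg_left (h6.trans h7) hC.le
      linarith
  -- (4)
  have p4 : ¬ Two θ → ∀ N : ℕ, ∃ Z : ℕ, N ≤ Z ∧
        ∀ Y : ℕ, Z < Y → Y ≤ Z ^ M → ∀ x ∈ Near θ C Y, ∀ y ∈ Near θ C Y, ¬ Ind x y := by
    intro hno N
    by_cases hex : ∃ H : ℕ, max N H₀ ≤ H ∧ ∃ m ∈ Near θ C H, ∃ n ∈ Near θ C H, Ind m n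
    · obtain ⟨H, hH, m, hm, n, hn, hI⟩ := hex
      obtain ⟨Z, hZ, -, hZ2⟩ := p3 hno H ((le_max_right _ _).trans hH) m hm n hn hI
      exact ⟨Z, (le_max_left _ _).trans (hH.trans hZ), hZ2⟩
    · push Not at hex
      exact ⟨max N H₀, le_max_left _ _, fun Y hY _ x hx y hy => hex Y hY.le x hx y hy⟩
  refine ⟨C, hC, H₀, p1, p2, p3, p4, ?_, ?_⟩
  · rintro ⟨m, n, hm, hn, hI, ⟨a, ha⟩, b, hb⟩
    filter_upwards [eventually_ge_atTop m, eventually_ge_atTop n, eventually_ge_atTop a.den,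
      eventually_ge_atTop b.den] with H h2 h3 h4 h5
    exact ⟨m, exact_near hm h2 a ha h4, n, exact_near hn h3 b hb h5, hI⟩
  · intro hev
    by_contra hno
    obtain ⟨N, hN⟩ := eventually_atTop.1 hev
    obtain ⟨Z, hZ, hZ2⟩ := p4 hno (max N 2)
    have hZ3 : 2 ≤ Z := (le_max_right _ _).trans hZ
    obtain ⟨x, hx, y, hy, hI⟩ := hN (Z + 1) (((le_max_left _ _).trans hZ).trans (Nat.le_succ Z))
    refine hZ2 (Z + 1) (Nat.lt_succ_self Z) ?_ x hx y hy hI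
    calc Z + 1 ≤ Z ^ 2 := by nlinarith
      _ ≤ Z ^ M := Nat.pow_le_pow_right (by omega) hM

end Pool.Agent.N743.RP
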