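import Pool.Agent.N743.RP.Dep

/-!
# Rigidity of near rational powers of three multiplicatively dependent integers
-/

set_option autoImplicit false

open Filter

namespace Pool.Agent.N743.RP

theorem numer {θ : ℝ} (hθ : 0 < θ) {x Y : ℕ} (hx : 2 ≤ x) (hxY : x ≤ Y) (p : ℤ) (q : ℕ) (hq : 1 ≤ q) (hqY : q ≤ Y)
    (h : |(x : ℝ) ^ θ - p / q| ≤ 1 / 2) : ∃ a : ℕ, 1 ≤ a ∧ a ≤ Y ^ (⌈θ⌉₊ + 2) ∧ (p : ℝ) = a := by
  have hx1 : (1 : ℝ) ≤ x := by exact_mod_cast (by omega : 1 ≤ x)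
  have hX1 : 1 ≤ (x : ℝ) ^ θ := Real.one_le_rpow hx1 hθ.le
  have hq0 : (0 : ℝ) < q := by exact_mod_cast hq
  obtain ⟨h1, h2⟩ := abs_le.1 h
  have h3 : (0 : ℝ) < (p : ℝ) / q := by linarith
  have h4 : (0 : ℝ) < (p : ℝ) := by
    have := mul_pos h3 hq0
    rwa [div_mul_cancel₀ _ hq0.ne'] at this
  have h5 : 0 < p := by exact_mod_cast h4
  obtain ⟨a, rfl⟩ := Int.eq_ofNat_of_zero_le h5.le
  refine ⟨a, by omega, ?_, by simp⟩
  have hY2 : (2 : ℝ) ≤ Y := by exact_mod_cast (by omega : 2 ≤ Y)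
  have hY1 : (1 : ℝ) ≤ Y := by linarith
  have h6 : (x : ℝ) ^ θ ≤ (Y : ℝ) ^ ⌈θ⌉₊ := by
    calc (x : ℝ) ^ θ ≤ (Y : ℝ) ^ θ := Real.rpow_le_rpow (by linarith) (by exact_mod_cast hxY) hθ.le
      _ ≤ (Y : ℝ) ^ ((⌈θ⌉₊ : ℕ) : ℝ) := Real.rpow_le_rpow_of_exponent_le hY1 (Nat.le_ceil θ)
      _ = _ := Real.rpow_natCast _ _
  have h7 : ((a : ℤ) : ℝ) / q ≤ 2 * (Y : ℝ) ^ ⌈θ⌉₊ := by linarith
  rw [div_le_iff₀ hq0] at h7
  have h8 : ((a : ℤ) : ℝ) ≤ (Y : ℝ) ^ (⌈θ⌉₊ + 2) := by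
    have h9 : (q : ℝ) ≤ Y := by exact_mod_cast hqY
    calc ((a : ℤ) : ℝ) ≤ 2 * (Y : ℝ) ^ ⌈θ⌉₊ * q := h7
      _ ≤ Y * (Y : ℝ) ^ ⌈θ⌉₊ * Y := by
          apply mul_le_mul _ h9 hq0.le (by positivity)
          apply mul_le_mul_of_nonneg_right hY2 (by positivity)
      _ = (Y : ℝ) ^ (⌈θ⌉₊ + 2) := by ring
  rw [Int.cast_natCast] at h8
  exact_mod_cast h8

theorem log_two_le (Y : ℕ) (hY : 1 ≤ Y) : (Nat.log 2 Y : ℝ) ≤ 2 * Real.log Y := by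
  have h1 : 2 ^ Nat.log 2 Y ≤ Y := Nat.pow_log_le_self 2 (by omega)
  have h2 : ((2 : ℝ)) ^ Nat.log 2 Y ≤ Y := by exact_mod_cast h1
  have h3 := Real.log_le_log (by positivity) h2
  rw [Real.log_pow] at h3
  have h4 : (1 / 2 : ℝ) ≤ Real.log 2 := by
    have := Real.log_two_gt_d9
    linarith
  have h5 : (0 : ℝ) ≤ Nat.log 2 Y := Nat.cast_nonneg _
  nlinarith

theorem sq_le_exp {L : ℝ} (hL : 864 ≤ L) : 32 * L ^ 2 ≤ Real.exp L := by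
  have h1 := Real.add_one_le_exp (L / 3)
  have h2 : Real.exp L = Real.exp (L / 3) ^ 3 := by
    rw [← Real.exp_nat_mul]
    congr 1
    push_cast
    ring
  rw [h2]
  have h3 : (L / 3) ^ 3 ≤ Real.exp (L / 3) ^ 3 := pow_le_pow_left₀ (by linarith) (by linarith) 3
  nlinarith [sq_nonneg L]

theorem rigid {θ c : ℝ} (hθ : 0 < θ) (hc : 0 < c) : ∃ B : ℝ, ∀ Y : ℕ, B ≤ Real.log Y → ∀ x y z : ℕ,
    2 ≤ x → 2 ≤ y → 2 ≤ z → x ≤ Y → y ≤ Y → z ≤ Y → Ind y z → Dep3 x y z →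
    ∀ (p p₁ p₂ : ℤ) (q q₁ q₂ : ℕ), 1 ≤ q → q ≤ Y → 1 ≤ q₁ → q₁ ≤ Y → 1 ≤ q₂ → q₂ ≤ Y →
    |(x : ℝ) ^ θ - p / q| ≤ Real.exp (-(c * Real.log Y ^ 15)) →
    |(y : ℝ) ^ θ - p₁ / q₁| ≤ Real.exp (-(c * Real.log Y ^ 15)) →
    |(z : ℝ) ^ θ - p₂ / q₂| ≤ Real.exp (-(c * Real.log Y ^ 15)) →
    |(x : ℝ) ^ θ - p / q| ≤ Real.exp ((θ + 1) * Real.log Y) *
      max |(y : ℝ) ^ θ - p₁ / q₁| |(z : ℝ) ^ θ - p₂ / q₂| := by
  obtain ⟨k, hk⟩ : ∃ k : ℕ, k = ⌈θ⌉₊ + 2 := ⟨_, rfl⟩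
  refine ⟨max 864 ((25 + 12 * k) / c), fun Y hB x y z hx hy hz hxY hyY hzY hI hD p p₁ p₂ q q₁ q₂ hq hqY hq₁ hqY₁ hq₂
    hqY₂ e1 e2 e3 => ?_⟩
  obtain ⟨L, hL⟩ : ∃ L : ℝ, L = Real.log Y := ⟨_, rfl⟩
  rw [← hL] at hB e1 e2 e3 ⊢
  have hL864 : 864 ≤ L := (le_max_left _ _).trans hB
  have hLc : 25 + 12 * k ≤ c * L := by
    have h1 := (le_max_right _ _).trans hB
    rw [div_le_iff₀ hc] at h1
    linarith
  have hL0 : 0 < L := by linarith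
  have hL1 : 1 ≤ L := by linarith
  have hk0 : (0 : ℝ) ≤ k := Nat.cast_nonneg k
  obtain ⟨ε, hε⟩ : ∃ ε : ℝ, ε = Real.exp (-(c * L ^ 15)) := ⟨_, rfl⟩
  rw [← hε] at e1 e2 e3
  have hcL : c * L ^ 4 ≤ c * L ^ 15 := mul_le_mul_of_nonneg_left (pow_le_pow_right₀ hL1 (by norm_num)) hc.le
  have hcL3 : (25 + 12 * k) * L ^ 3 ≤ c * L ^ 15 := by
    calc (25 + 12 * k) * L ^ 3 ≤ (c * L) * L ^ 3 := mul_le_mul_of_nonneg_right hLc (by positivity)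
      _ = c * L ^ 4 := by ring
      _ ≤ _ := hcL
  have hL31 : 1 ≤ L ^ 3 := one_le_pow₀ hL1
  have hε2 : ε ≤ 1 / 2 := by
    rw [hε]
    calc Real.exp (-(c * L ^ 15)) ≤ Real.exp (-1) := Real.exp_le_exp.2 (by nlinarith)
      _ ≤ 1 / 2 := by
          rw [Real.exp_neg, ← one_div]
          apply one_div_le_one_div_of_le (by norm_num)
          have := Real.add_one_le_exp (1 : ℝ)
          linarith
  obtain ⟨a, ha, haA, hpa⟩ := numer hθ hx hxY p q hq hqY (e1.trans hε2)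
  obtain ⟨a₁, ha₁, haA₁, hpa₁⟩ := numer hθ hy hyY p₁ q₁ hq₁ hqY₁ (e2.trans hε2)
  obtain ⟨a₂, ha₂, haA₂, hpa₂⟩ := numer hθ hz hzY p₂ q₂ hq₂ hqY₂ (e3.trans hε2)
  rw [← hk] at haA haA₁ haA₂
  have hY1 : 1 ≤ Y := by omega
  have hYk : Y ≤ Y ^ k := by
    calc Y = Y ^ 1 := (pow_one Y).symm
      _ ≤ Y ^ k := Nat.pow_le_pow_right hY1 (by omega)
  have hY0 : (0 : ℝ) < Y := by exact_mod_cast hY1
  obtain ⟨D, D₁, D₂, hD0, hDT, hDT₁, hDT₂, hDl⟩ := cramer (N := Y) (by omega) hy hz hxY hyY hzY hI hD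
  obtain ⟨T, hT⟩ : ∃ T : ℕ, T = Nat.log 2 Y ^ 2 := ⟨_, rfl⟩
  rw [← hT] at hDT hDT₁ hDT₂
  have hTL : (T : ℝ) ≤ 4 * L ^ 2 := by
    rw [hT, hL]
    push_cast
    have h1 := log_two_le Y hY1
    have h2 : (0 : ℝ) ≤ Nat.log 2 Y := Nat.cast_nonneg _
    calc ((Nat.log 2 Y : ℕ) : ℝ) ^ 2 ≤ (2 * Real.log Y) ^ 2 := pow_le_pow_left₀ h2 h1 2
      _ = _ := by ring
  have hT0 : (0 : ℝ) ≤ T := Nat.cast_nonneg T
  have hgap := gap ha hq haA (hqY.trans hYk) ha₁ hq₁ haA₁ (hqY₁.trans hYk) ha₂ hq₂ haA₂ (hqY₂.trans hYk) D D₁ D₂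
    hDT hDT₁ hDT₂
  -- the logarithmic errors
  have hone : ∀ n : ℕ, 2 ≤ n → 1 ≤ (n : ℝ) ^ θ := fun n hn =>
    Real.one_le_rpow (by exact_mod_cast (by omega : 1 ≤ n)) hθ.le
  have hlogpow : ∀ n : ℕ, 2 ≤ n → Real.log ((n : ℝ) ^ θ) = θ * Real.log n := fun n hn =>
    Real.log_rpow (by exact_mod_cast (by omega : 0 < n)) θ
  have hlogdiv : ∀ (s : ℤ) (t b : ℕ), 1 ≤ t → 1 ≤ b → (s : ℝ) = b → Real.log ((s : ℝ) / t) = Real.log b - Real.log t := by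
    intro s t b ht hb hs
    rw [hs, Real.log_div]
    · exact_mod_cast (by omega : b ≠ 0)
    · exact_mod_cast (by omega : t ≠ 0)
  obtain ⟨-, f1, g1⟩ := log_close (hone x hx) (e1.trans hε2)
  obtain ⟨-, f2, -⟩ := log_close (hone y hy) (e2.trans hε2)
  obtain ⟨-, f3, -⟩ := log_close (hone z hz) (e3.trans hε2)
  rw [hlogpow x hx, hlogdiv p q a hq ha hpa] at f1 g1
  rw [hlogpow y hy, hlogdiv p₁ q₁ a₁ hq₁ ha₁ hpa₁] at f2
  rw [hlogpow z hz, hlogdiv p₂ q₂ a₂ hq₂ ha₂ hpa₂] at f3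
  obtain ⟨s1, hs1⟩ : ∃ s, s = θ * Real.log x - (Real.log a - Real.log q) := ⟨_, rfl⟩
  obtain ⟨s2, hs2⟩ : ∃ s, s = θ * Real.log y - (Real.log a₁ - Real.log q₁) := ⟨_, rfl⟩
  obtain ⟨s3, hs3⟩ : ∃ s, s = θ * Real.log z - (Real.log a₂ - Real.log q₂) := ⟨_, rfl⟩
  rw [← hs1] at f1 g1
  rw [← hs2] at f2
  rw [← hs3] at f3
  have hS : (D : ℝ) * (Real.log a - Real.log q) - D₁ * (Real.log a₁ - Real.log q₁) -
      D₂ * (Real.log a₂ - Real.log q₂) = -(D * s1) + D₁ * s2 + D₂ * s3 := by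
    rw [hs1, hs2, hs3]
    linear_combination θ * hDl
  rw [hS] at hgap
  have hcast : ∀ E : ℤ, |E| ≤ (T : ℤ) → |(E : ℝ)| ≤ T := by
    intro E hE
    have : ((|E| : ℤ) : ℝ) ≤ ((T : ℤ) : ℝ) := by exact_mod_cast hE
    rwa [Int.cast_abs, Int.cast_natCast] at this
  have hmul : ∀ (E : ℤ) (s b : ℝ), |E| ≤ (T : ℤ) → |s| ≤ b → |(E : ℝ) * s| ≤ T * b := by
    intro E s b hE hs
    rw [abs_mul]
    exact mul_le_mul (hcast E hE) hs (abs_nonneg _) hT0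
  have hzero : -((D : ℝ) * s1) + D₁ * s2 + D₂ * s3 = 0 := by
    rcases hgap with h | h
    · exact h
    · exfalso
      have m1 := hmul D s1 (2 * ε) hDT (f1.trans (by linarith))
      have m2 := hmul D₁ s2 (2 * ε) hDT₁ (f2.trans (by linarith))
      have m3 := hmul D₂ s3 (2 * ε) hDT₂ (f3.trans (by linarith))
      have m4 : |-((D : ℝ) * s1) + D₁ * s2 + D₂ * s3| ≤ 6 * T * ε := by
        calc |-((D : ℝ) * s1) + D₁ * s2 + D₂ * s3| ≤ |-((D : ℝ) * s1)| + |(D₁ : ℝ) * s2| + |(D₂ : ℝ) * s3| :=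
              abs_add_three _ _ _
          _ ≤ T * (2 * ε) + T * (2 * ε) + T * (2 * ε) := by
              rw [abs_neg]
              linarith
          _ = 6 * T * ε := by ring
      have m5 : 1 / (((Y ^ k : ℕ) : ℝ)) ^ (3 * T) = Real.exp (-(3 * k * T * L)) := by
        rw [Real.exp_neg, one_div]
        congr 1
        have : (Y : ℝ) = Real.exp L := by rw [hL, Real.exp_log hY0]
        push_cast
        rw [this, ← Real.exp_nat_mul, ← Real.exp_nat_mul]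
        congr 1
        push_cast
        ring
      rw [m5] at h
      have m6 : 6 * T * ε ≤ Real.exp (6 * T + -(c * L ^ 15)) := by
        rw [Real.exp_add, ← hε]
        have h1 := Real.add_one_le_exp (6 * (T : ℝ))
        have h2 : 0 < ε := by
          rw [hε]
          exact Real.exp_pos _
        nlinarith
      have m7 : Real.exp (6 * T + -(c * L ^ 15)) < Real.exp (-(3 * k * T * L)) := by
        refine Real.exp_lt_exp.2 ?_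
        have n1 : 6 * (T : ℝ) ≤ 24 * L ^ 3 := by
          have : L ^ 2 ≤ L ^ 3 := pow_le_pow_right₀ hL1 (by norm_num)
          linarith
        have n2 : 3 * k * T * L ≤ 12 * k * L ^ 3 := by
          calc 3 * k * T * L ≤ 3 * k * (4 * L ^ 2) * L := by
                apply mul_le_mul_of_nonneg_right _ hL0.le
                exact mul_le_mul_of_nonneg_left hTL (by positivity)
            _ = _ := by ring
        nlinarith
      linarith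
  -- the conclusion
  obtain ⟨m, hm⟩ : ∃ m, m = max |(y : ℝ) ^ θ - p₁ / q₁| |(z : ℝ) ^ θ - p₂ / q₂| := ⟨_, rfl⟩
  rw [← hm]
  have hm1 : |(y : ℝ) ^ θ - p₁ / q₁| ≤ m := hm ▸ le_max_left _ _
  have hm2 : |(z : ℝ) ^ θ - p₂ / q₂| ≤ m := hm ▸ le_max_right _ _
  have hm0 : 0 ≤ m := (abs_nonneg _).trans hm1
  have hD1 : (1 : ℝ) ≤ |(D : ℝ)| := by
    have : 1 ≤ |D| := Int.one_le_abs hD0
    have h1 : ((1 : ℤ) : ℝ) ≤ ((|D| : ℤ) : ℝ) := by exact_mod_cast this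
    rwa [Int.cast_one, Int.cast_abs] at h1
  have k1 : |s1| ≤ 4 * T * m := by
    have h1 : (D : ℝ) * s1 = D₁ * s2 + D₂ * s3 := by linarith
    calc |s1| = 1 * |s1| := (one_mul _).symm
      _ ≤ |(D : ℝ)| * |s1| := mul_le_mul_of_nonneg_right hD1 (abs_nonneg _)
      _ = |(D₁ : ℝ) * s2 + D₂ * s3| := by rw [← abs_mul, h1]
      _ ≤ |(D₁ : ℝ) * s2| + |(D₂ : ℝ) * s3| := abs_add_le _ _
      _ ≤ T * (2 * m) + T * (2 * m) :=
          add_le_add (hmul D₁ s2 _ hDT₁ (f2.trans (by linarith))) (hmul D₂ s3 _ hDT₂ (f3.trans (by linarith)))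
      _ = 4 * T * m := by ring
  have k2 : (x : ℝ) ^ θ ≤ Real.exp (θ * L) := by
    calc (x : ℝ) ^ θ ≤ (Y : ℝ) ^ θ := Real.rpow_le_rpow (Nat.cast_nonneg x) (by exact_mod_cast hxY) hθ.le
      _ = Real.exp (θ * L) := by rw [Real.rpow_def_of_pos hY0, hL, mul_comm]
  have k3 : (0 : ℝ) ≤ (x : ℝ) ^ θ := by linarith [hone x hx]
  calc |(x : ℝ) ^ θ - p / q| ≤ 2 * (x : ℝ) ^ θ * |s1| := g1
    _ ≤ 2 * Real.exp (θ * L) * (4 * T * m) :=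
        mul_le_mul (by linarith) k1 (abs_nonneg _) (by positivity)
    _ = 8 * T * Real.exp (θ * L) * m := by ring
    _ ≤ Real.exp L * Real.exp (θ * L) * m := by
        apply mul_le_mul_of_nonneg_right _ hm0
        apply mul_le_mul_of_nonneg_right _ (Real.exp_pos _).le
        have := sq_le_exp hL864
        linarith
    _ = Real.exp ((θ + 1) * L) * m := by
        rw [← Real.exp_add]
        congr 2
        ring

end Pool.Agent.N743.RP
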